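import Pool.Agent.H96fb.Occ

/-!
# MP_9e6215_co, Q1: a uniformly factor-balanced word of superlinear factor complexity

There are a finite alphabet and an infinite word over it for which one constant `C` bounds, for
every factor `w`, the difference of the numbers of occurrences of `w` in any two factors of the
same length, while the factor complexity `p` satisfies `sup p(n)/n = ∞`.

The word is of Toeplitz type, with levels `n = 0, 1, …`. At level `n` a block is numbered
`t + M y` with `t < M = 4 * 2 ^ (n + 3)`, its type is `t` together with one bit, and the bits in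
the row `y` are the values at `min t (M - 1 - t)` of the polynomial `∑ y_b (X choose b)` over the
field with two elements, where the `y_b` are the low binary digits of `y`, except at one place of
the row, where the bit of the block of level `n + 1` is added. Any `k` consecutive values of the
polynomial determine the `k` lowest digits, so that windows are matched once in each block of
`2 ^ k` rows, and the recording places are spread so that at most `52` classes are disturbed.
-/

namespace Pool.Agent.Results.MP_9e6215_co.UniformlyBalancedSuperlinear

/-- `u` is a factor of `x`: `u = x_i x_{i+1} ⋯ x_{i+|u|-1}` for some `i`. -/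
def IsFactor {A : Type} (x : ℕ → A) (u : List A) : Prop :=
  ∃ i, u = (List.range u.length).map (fun k => x (i + k))

/-- `|u|_w`: the number of positions of `u` at which `w` occurs (overlaps are counted). -/
noncomputable def occ {A : Type} (u w : List A) : ℕ :=
  {k : ℕ | k + w.length ≤ u.length ∧ (u.drop k).take w.length = w}.ncard

/-- `w` is `C`-balanced in `x`. -/
def BalancedIn {A : Type} (x : ℕ → A) (C : ℕ) (w : List A) : Prop :=
  ∀ u v : List A, IsFactor x u → IsFactor x v → u.length = v.length →
    |(occ u w : ℤ) - (occ v w : ℤ)| ≤ C

/-- One constant works for all factors. -/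
def UniformlyFactorBalanced {A : Type} (x : ℕ → A) : Prop :=
  ∃ C : ℕ, 1 ≤ C ∧ ∀ w : List A, IsFactor x w → BalancedIn x C w

/-- The factor complexity: the number of factors of length `n`. -/
noncomputable def complexity {A : Type} (x : ℕ → A) (n : ℕ) : ℕ :=
  {u : List A | IsFactor x u ∧ u.length = n}.ncard

/-- `sup p(n)/n = ∞`. -/
def Superlinear {A : Type} (x : ℕ → A) : Prop :=
  ∀ K : ℕ, ∃ n : ℕ, 1 ≤ n ∧ K * n < complexity x n

open Pool.Agent.H96fb Finset

theorem occ_eq (u w : List (Fin (M 0) × Bool)) (i : ℕ)
    (hu : u = (List.range u.length).map (fun k => x (i + k))) :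
    (occ u w : ℝ) = ∑ k ∈ range (u.length + 1 - w.length),
      ind (Oc w.length (fun j => if h : j < w.length then w[j] else x 0)) (i + k) := by
  classical
  have hset : {k : ℕ | k + w.length ≤ u.length ∧ (u.drop k).take w.length = w} =
      (((range (u.length + 1 - w.length)).filter (fun k =>
        i + k ∈ Oc w.length (fun j => if h : j < w.length then w[j] else x 0)) : Finset ℕ) :
        Set ℕ) := by
    ext k
    simp only [Set.mem_ofPred_eq, coe_filter, Finset.mem_range]
    constructor
    · rintro ⟨h1, h2⟩
      refine ⟨by omega, ?_⟩
      intro j hj
      simp only [dif_pos hj]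
      have h3 : w[j]? = ((u.drop k).take w.length)[j]? := by rw [h2]
      rw [List.getElem?_take_of_lt hj, List.getElem?_drop, hu, List.getElem?_map,
        List.getElem?_range (by omega), List.getElem?_eq_getElem hj] at h3
      simp only [Option.map_some, Option.some.injEq] at h3
      rw [h3, add_assoc]
    · rintro ⟨h1, h2⟩
      refine ⟨by omega, ?_⟩
      apply List.ext_getElem?
      intro j
      by_cases hj : j < w.length
      · have h3 := h2 j hj
        simp only [dif_pos hj] at h3
        rw [List.getElem?_take_of_lt hj, List.getElem?_drop, hu, List.getElem?_map,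
          List.getElem?_range (by omega), List.getElem?_eq_getElem hj]
        simp only [Option.map_some, Option.some.injEq]
        rw [← h3, add_assoc]
      · rw [List.getElem?_eq_none (by rw [List.length_take]; omega),
          List.getElem?_eq_none (by omega)]
  unfold occ
  rw [hset, Set.ncard_coe_finset]
  unfold ind
  rw [Finset.sum_boole]

theorem result : ∃ (A : Type) (_ : Finite A) (x : ℕ → A),
    UniformlyFactorBalanced x ∧ Superlinear x := by
  refine ⟨Fin (M 0) × Bool, inferInstance, x, ⟨53504, by norm_num, ?_⟩, ?_⟩
  · intro w _ u v ⟨i, hu⟩ ⟨j, hv⟩ hlen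
    obtain ⟨φ, h1, h2⟩ :=
      occ_bal w.length (fun j => if h : j < w.length then w[j] else x 0)
    have key : ∀ (a N : ℕ), |∑ k ∈ range N,
        ind (Oc w.length (fun j => if h : j < w.length then w[j] else x 0)) (a + k) - φ * N| ≤
        26752 := by
      intro a N
      have e := h2 (a + N)
      have f := h2 a
      rw [sum_range_add] at e
      push_cast at e
      rw [abs_le] at e f ⊢
      constructor <;> linarith
    have hU := occ_eq u w i hu
    have hV := occ_eq v w j hv
    have a := key i (u.length + 1 - w.length)
    have b := key j (v.length + 1 - w.length)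
    rw [← hU] at a
    rw [← hV, ← hlen] at b
    have c : |(occ u w : ℝ) - (occ v w : ℝ)| ≤ 53504 := by
      rw [abs_le] at a b ⊢
      constructor <;> linarith
    have d : |((occ u w : ℤ) : ℝ) - ((occ v w : ℤ) : ℝ)| ≤ 53504 := by
      push_cast; exact c
    rw [← Int.cast_sub, ← Int.cast_abs] at d
    exact_mod_cast d
  · intro K
    refine ⟨ell K, ell_pos K, ?_⟩
    have hfin : {u : List (Fin (M 0) × Bool) | IsFactor x u ∧ u.length = ell K}.Finite :=
      (List.finite_length_eq (Fin (M 0) × Bool) (ell K)).subset (fun u hu => hu.2)
    have hsub : (fun p => (List.range (ell K)).map (fun k => x (p + k))) ''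
        (Set.Iio (ell K * M K)) ⊆ {u | IsFactor x u ∧ u.length = ell K} := by
      rintro u ⟨p, _, rfl⟩
      refine ⟨⟨p, ?_⟩, ?_⟩
      · simp
      · simp
    have hinj : Set.InjOn (fun p => (List.range (ell K)).map (fun k => x (p + k)))
        (Set.Iio (ell K * M K)) := by
      intro p hp p' hp' h
      have h2 : ∀ i, i < ell K → x (p + i) = x (p' + i) := by
        intro i hi
        have h3 : ((List.range (ell K)).map (fun k => x (p + k)))[i]? =
          ((List.range (ell K)).map (fun k => x (p' + k)))[i]? := by
          exact congrArg (fun l : List (Fin (M 0) × Bool) => l[i]?) h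
        rw [List.getElem?_map, List.getElem?_map, List.getElem?_range hi] at h3
        simpa using h3
      have h3 := recog K p p' h2
      rwa [Nat.mod_eq_of_lt hp, Nat.mod_eq_of_lt hp'] at h3
    have hcard := Set.ncard_le_ncard hsub hfin
    rw [hinj.ncard_image] at hcard
    have hIio : (Set.Iio (ell K * M K)).ncard = ell K * M K := by
      rw [← Finset.coe_range, Set.ncard_coe_finset, card_range]
    rw [hIio] at hcard
    have hKM : K < M K := by
      have h1 : K < 2 ^ K := Nat.lt_two_pow_self
      have h2 : M K = 32 * 2 ^ K := by unfold M Q; ring
      omega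
    calc K * ell K < M K * ell K := Nat.mul_lt_mul_of_pos_right hKM (ell_pos K)
      _ = ell K * M K := mul_comm _ _
      _ ≤ _ := hcard

end Pool.Agent.Results.MP_9e6215_co.UniformlyBalancedSuperlinear
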